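import Mathlib

set_option autoImplicit false

namespace Pool.Agent.Results.MP_3db952_lc.NoUniversal

/-- Projection to the first axis. -/
def p1 (S : Set (ℝ × ℝ)) : Set (ℝ × ℝ) := {z | z.2 = 0 ∧ ∃ y, (z.1, y) ∈ S}

/-- Projection to the second axis. -/
def p2 (S : Set (ℝ × ℝ)) : Set (ℝ × ℝ) := {z | z.1 = 0 ∧ ∃ x, (x, z.2) ∈ S}

/-- Direct product of a subset of the first axis and a subset of the second axis. -/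
def tens (A B : Set (ℝ × ℝ)) : Set (ℝ × ℝ) := {z | (z.1, 0) ∈ A ∧ (0, z.2) ∈ B}

def axX : Set (ℝ × ℝ) := {z | z.2 = 0}
def axY : Set (ℝ × ℝ) := {z | z.1 = 0}

/-- A projective algebra of plane sets. -/
structure IsProjAlg (𝒜 : Set (Set (ℝ × ℝ))) : Prop where
  empty : ∅ ∈ 𝒜
  union : ∀ A ∈ 𝒜, ∀ B ∈ 𝒜, A ∪ B ∈ 𝒜
  inter : ∀ A ∈ 𝒜, ∀ B ∈ 𝒜, A ∩ B ∈ 𝒜
  compl : ∀ A ∈ 𝒜, Aᶜ ∈ 𝒜
  proj1 : ∀ A ∈ 𝒜, p1 A ∈ 𝒜
  proj2 : ∀ A ∈ 𝒜, p2 A ∈ 𝒜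
  prod : ∀ A ∈ 𝒜, ∀ B ∈ 𝒜, A ⊆ axX → B ⊆ axY → tens A B ∈ 𝒜

/-- `f` maps `𝒜` injectively into `𝒰` preserving all operations. -/
structure IsEmbedding (𝒜 𝒰 : Set (Set (ℝ × ℝ))) (f : Set (ℝ × ℝ) → Set (ℝ × ℝ)) : Prop where
  maps : Set.MapsTo f 𝒜 𝒰
  inj : Set.InjOn f 𝒜
  union : ∀ A ∈ 𝒜, ∀ B ∈ 𝒜, f (A ∪ B) = f A ∪ f B
  inter : ∀ A ∈ 𝒜, ∀ B ∈ 𝒜, f (A ∩ B) = f A ∩ f B
  compl : ∀ A ∈ 𝒜, f Aᶜ = (f A)ᶜ
  proj1 : ∀ A ∈ 𝒜, f (p1 A) = p1 (f A)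
  proj2 : ∀ A ∈ 𝒜, f (p2 A) = p2 (f A)
  prod : ∀ A ∈ 𝒜, ∀ B ∈ 𝒜, A ⊆ axX → B ⊆ axY → f (tens A B) = tens (f A) (f B)

inductive Tm : Type
  | gen : Fin 4 → Tm
  | un : Tm → Tm → Tm
  | int : Tm → Tm → Tm
  | co : Tm → Tm
  | q1 : Tm → Tm
  | q2 : Tm → Tm
  | te : Tm → Tm → Tm

def enc : Tm → ℕ
  | .gen i => Nat.pair 0 i
  | .un a b => Nat.pair 1 (Nat.pair (enc a) (enc b))
  | .int a b => Nat.pair 2 (Nat.pair (enc a) (enc b))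
  | .co a => Nat.pair 3 (enc a)
  | .q1 a => Nat.pair 4 (enc a)
  | .q2 a => Nat.pair 5 (enc a)
  | .te a b => Nat.pair 6 (Nat.pair (enc a) (enc b))

lemma enc_inj (a : Tm) : ∀ b, enc a = enc b → a = b := by
  induction a <;> intro b <;> cases b <;> simp only [enc, Nat.pair_eq_pair] <;> grind

instance : Countable Tm := ⟨enc, fun a b h => enc_inj a b h⟩

def ev (g : Fin 4 → Set (ℝ × ℝ)) : Tm → Set (ℝ × ℝ)
  | .gen i => g i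
  | .un a b => ev g a ∪ ev g b
  | .int a b => ev g a ∩ ev g b
  | .co a => (ev g a)ᶜ
  | .q1 a => p1 (ev g a)
  | .q2 a => p2 (ev g a)
  | .te a b => tens (p1 (ev g a)) (p2 (ev g b))

lemma p1_eq {A : Set (ℝ × ℝ)} (h : A ⊆ axX) : p1 A = A := by
  ext ⟨x, y⟩
  constructor
  · rintro ⟨h1, t, h2⟩
    have h3 : t = 0 := h h2
    simp only at h1
    rw [h1, ← h3]; exact h2
  · intro h1; exact ⟨h h1, y, h1⟩

lemma p2_eq {A : Set (ℝ × ℝ)} (h : A ⊆ axY) : p2 A = A := by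
  ext ⟨x, y⟩
  constructor
  · rintro ⟨h1, t, h2⟩
    have h3 : t = 0 := h h2
    simp only at h1
    rw [h1, ← h3]; exact h2
  · intro h1; exact ⟨h h1, x, h1⟩

lemma alg (g : Fin 4 → Set (ℝ × ℝ)) : IsProjAlg (Set.range (ev g)) where
  empty := ⟨.int (.gen 0) (.co (.gen 0)), by simp [ev]⟩
  union := by rintro _ ⟨a, rfl⟩ _ ⟨b, rfl⟩; exact ⟨.un a b, rfl⟩
  inter := by rintro _ ⟨a, rfl⟩ _ ⟨b, rfl⟩; exact ⟨.int a b, rfl⟩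
  compl := by rintro _ ⟨a, rfl⟩; exact ⟨.co a, rfl⟩
  proj1 := by rintro _ ⟨a, rfl⟩; exact ⟨.q1 a, rfl⟩
  proj2 := by rintro _ ⟨a, rfl⟩; exact ⟨.q2 a, rfl⟩
  prod := by
    rintro _ ⟨a, rfl⟩ _ ⟨b, rfl⟩ h1 h2
    exact ⟨.te a b, by rw [ev, p1_eq h1, p2_eq h2]⟩

lemma emb_ev (g : Fin 4 → Set (ℝ × ℝ)) (𝒰 : Set (Set (ℝ × ℝ))) (f : Set (ℝ × ℝ) → Set (ℝ × ℝ))
    (h : IsEmbedding (Set.range (ev g)) 𝒰 f) (t : Tm) : f (ev g t) = ev (fun i => f (g i)) t := by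
  induction t with
  | gen i => rfl
  | un a b ha hb => rw [ev, h.union _ ⟨a, rfl⟩ _ ⟨b, rfl⟩, ha, hb, ev]
  | int a b ha hb => rw [ev, h.inter _ ⟨a, rfl⟩ _ ⟨b, rfl⟩, ha, hb, ev]
  | co a ha => rw [ev, h.compl _ ⟨a, rfl⟩, ha, ev]
  | q1 a ha => rw [ev, h.proj1 _ ⟨a, rfl⟩, ha, ev]
  | q2 a ha => rw [ev, h.proj2 _ ⟨a, rfl⟩, ha, ev]
  | te a b ha hb =>
    have e := h.prod (p1 (ev g a)) ⟨.q1 a, rfl⟩ (p2 (ev g b)) ⟨.q2 b, rfl⟩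
      (fun _ hz => hz.1) (fun _ hz => hz.1)
    rw [ev, e, h.proj1 _ ⟨a, rfl⟩, h.proj2 _ ⟨b, rfl⟩, ha, hb, ev]

def gens (S : Set ℕ) : Fin 4 → Set (ℝ × ℝ) :=
  ![{(0, 0)}, {z | z.2 = z.1 + 1}, {z | z.2 = z.1}, {z | ∃ n ∈ S, z = ((n : ℝ), 0)}]

def pt : ℕ → Tm
  | 0 => .gen 0
  | n + 1 => .q1 (.int (.te (.gen 2) (.int (.te (pt n) (.gen 2)) (.gen 1))) (.gen 2))

lemma ev_pt (S : Set ℕ) (n : ℕ) : ev (gens S) (pt n) = {((n : ℝ), 0)} := by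
  induction n with
  | zero => simp [pt, ev, gens]
  | succ n ih =>
    simp only [pt, ev, ih]
    ext ⟨x, y⟩
    simp [gens, p1, p2, tens, and_comm]

def tt (n : ℕ) : Tm := .int (pt n) (.gen 3)
def te0 : Tm := .int (.gen 0) (.co (.gen 0))

lemma ev_tt (S : Set ℕ) (n : ℕ) : ev (gens S) (tt n) = ev (gens S) te0 ↔ n ∉ S := by
  simp only [tt, te0, ev, ev_pt, Set.inter_compl_self, Set.singleton_inter_eq_empty]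
  simp [gens]

/-- No countable projective algebra is universal. -/
theorem result (𝒰 : Set (Set (ℝ × ℝ))) (_h𝒰 : IsProjAlg 𝒰) (hc : 𝒰.Countable) :
    ∃ 𝒜 : Set (Set (ℝ × ℝ)), IsProjAlg 𝒜 ∧ 𝒜.Countable ∧ ¬ ∃ f, IsEmbedding 𝒜 𝒰 f := by
  by_contra H
  push Not at H
  choose f hf using fun S => H _ (alg (gens S)) (Set.countable_range _)
  have := hc.to_subtype
  let F : Set ℕ → Fin 4 → 𝒰 := fun S i => ⟨f S (gens S i), (hf S).maps ⟨.gen i, rfl⟩⟩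
  have key : ∀ S n, n ∉ S ↔ ev (fun i => (F S i).1) (tt n) = ev (fun i => (F S i).1) te0 := by
    intro S n
    rw [← ev_tt, ← emb_ev _ _ _ (hf S), ← emb_ev _ _ _ (hf S)]
    exact ⟨fun h => by rw [h], fun h => (hf S).inj ⟨_, rfl⟩ ⟨_, rfl⟩ h⟩
  have hF : Function.Injective F := by
    intro S S' e
    ext n
    have h1 := key S n
    rw [e, ← key S' n] at h1
    tauto
  have h2 : Countable (Set ℕ) := hF.countable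
  obtain ⟨g, hg⟩ := exists_surjective_nat (Set ℕ)
  exact Function.cantor_surjective g hg

end Pool.Agent.Results.MP_3db952_lc.NoUniversal
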